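import Pool.Agent.H.MP_ad338c_an.B

set_option autoImplicit false

open Filter Set Topology Equiv

namespace Pool.Agent.Results.MP_ad338c_an.No

abbrev S : Type := AddCircle (1 : ℝ)

def PI (Λ : AddSubgroup S) (f : Perm S) : Prop :=
  ∃ F : Set S, F.Finite ∧ F ⊆ Λ ∧ ∀ x ∉ F, ∃ c ∈ Λ,
    (∀ᶠ y in 𝓝 x, f y = y + c) ∨ (∀ᶠ y in 𝓝 x, f y = -y + c)

abbrev FS : Subgroup (Perm S) := Subgroup.normalClosure {f | {x | f x ≠ x}.Finite}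

def IET (Λ : AddSubgroup S) : Subgroup (Perm S ⧸ FS) :=
  Subgroup.closure (QuotientGroup.mk '' {f | PI Λ f})

def HomOn (Λ : AddSubgroup S) {X : Type*} (s : Perm S ⧸ FS → Perm X) : Prop :=
  ∀ a ∈ IET Λ, ∀ b ∈ IET Λ, s (a * b) = s a * s b

universe u

theorem result (Λ : AddSubgroup S) (hΛ : ∃ α ∈ Λ, ¬ IsOfFinAddOrder α) :
    (¬ ∃ s : Perm S ⧸ FS → Perm S, HomOn Λ s ∧ ∀ a ∈ IET Λ, QuotientGroup.mk (s a) = a) ∧
    ∀ Y : Type u, ¬ ∃ s : Perm S ⧸ FS → Perm (S ⊕ Y), HomOn Λ s ∧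
      ∀ f : Perm S, QuotientGroup.mk f ∈ IET Λ →
        {x | s (QuotientGroup.mk f) x ≠ Sum.map f id x}.Finite := by
  constructor
  · rintro ⟨s, h1, h2⟩
    exact Pool.Agent.H.MP_ad338c_an.plain Λ hΛ
      ⟨MonoidHom.mk' (fun a => s a.1) (fun a b => h1 _ a.2 _ b.2), fun γ => h2 _ γ.2⟩
  · rintro Y ⟨s, h1, h2⟩
    refine Pool.Agent.H.MP_ad338c_an.stable Λ hΛ Y
      ⟨MonoidHom.mk' (fun a => s a.1) (fun a b => h1 _ a.2 _ b.2), ?_⟩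
    rintro ⟨a, ha⟩ f rfl
    exact h2 f ha

end Pool.Agent.Results.MP_ad338c_an.No
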